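import Pool.Agent.helper68.FY.Spec

/-!
# Project fy, row RES: Moebius images of the Farey set
-/

set_option autoImplicit false

namespace Pool.Agent.helper68.FY

open Finset

/-- the value of a character of a nonzero element has norm one. -/
theorem RES_norm (p : ℕ) [Fact p.Prime] (χ : MulChar (ZMod p) ℂ) (x : ZMod p) (hx : x ≠ 0) : ‖χ x‖ = 1 := by
  have h : x ^ (p - 1) = 1 := ZMod.pow_card_sub_one_eq_one hx
  have h2 : χ x ^ (p - 1) = 1 := by rw [← map_pow, h, map_one]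
  have hp : p - 1 ≠ 0 := by
    have := (Fact.out : p.Prime).two_le
    omega
  exact Complex.norm_eq_one_of_pow_eq_one h2 hp

theorem RES_norm_le (p : ℕ) [Fact p.Prime] (χ : MulChar (ZMod p) ℂ) (x : ZMod p) : ‖χ x‖ ≤ 1 := by
  by_cases hx : x = 0
  · rw [hx, MulChar.map_zero, norm_zero]
    exact zero_le_one
  · exact (RES_norm p χ x hx).le

/-- the combinatorial part. -/
theorem RES_core (p : ℕ) [Fact p.Prime] (χ : MulChar (ZMod p) ℂ) (A B : Finset (ZMod p)) (β : ZMod p → ℂ)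
    (hβ : ∀ w, ‖β w‖ ≤ 1) (Q : ℕ) (a b c d : ZMod p) (hdet : a * d - b * c ≠ 0)
    (hA : ∀ z ∈ A, ∃ x y : ℕ, 1 ≤ x ∧ x ≤ Q ∧ 1 ≤ y ∧ y ≤ Q ∧ c * x + d * y ≠ 0 ∧
      z = (a * x + b * y) / (c * x + d * y)) :
    ∃ (B' : Finset (ZMod p)) (β' : ZMod p → ℂ), (∀ w, ‖β' w‖ ≤ 1) ∧ B'.card ≤ B.card ∧ B.card ≤ B'.card + 1 ∧
      ∑ z ∈ A, ‖∑ w ∈ B, β w * χ (z + w)‖ ≤ (Q : ℝ) ^ 2 + S1 p χ B' β' Q := by
  classical
  set B₁ := B.filter fun w => a + c * w ≠ 0 with hB₁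
  set B₂ := B.filter fun w => ¬ (a + c * w ≠ 0) with hB₂
  have hB₂card : B₂.card ≤ 1 := by
    rw [Finset.card_le_one]
    intro w hw w' hw'
    rw [hB₂, Finset.mem_filter, not_not] at hw hw'
    have hc : c ≠ 0 := by
      rintro rfl
      have h1 := hw.2
      rw [zero_mul, add_zero] at h1
      apply hdet
      rw [h1]; ring
    have h2 : c * (w - w') = 0 := by linear_combination hw.2 - hw'.2
    exact sub_eq_zero.1 ((mul_eq_zero.1 h2).resolve_left hc)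
  have hsplit : B₁.card + B₂.card = B.card := Finset.card_filter_add_card_filter_not _
  let st : ZMod p → ZMod p := fun w => (b + d * w) / (a + c * w)
  let inv : ZMod p → ZMod p := fun u => (a * u - b) / (d - c * u)
  have hinv : ∀ w ∈ B₁, inv (st w) = w := by
    intro w hw
    have hw' : a + c * w ≠ 0 := (Finset.mem_filter.1 hw).2
    have hd : d - c * st w ≠ 0 := by
      intro h
      apply hdet
      have h3 : d * (a + c * w) = c * (b + d * w) := by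
        have : st w * (a + c * w) = b + d * w := div_mul_cancel₀ _ hw'
        linear_combination (a + c * w) * h + c * this
      linear_combination h3
    have : st w * (a + c * w) = b + d * w := div_mul_cancel₀ _ hw'
    show (a * st w - b) / (d - c * st w) = w
    rw [div_eq_iff hd]
    linear_combination this
  have hinj : Set.InjOn st (B₁ : Set (ZMod p)) := by
    intro w hw w' hw' h
    rw [← hinv w hw, ← hinv w' hw', h]
  let β' : ZMod p → ℂ := fun u => β (inv u) * χ (a + c * inv u)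
  have hβ' : ∀ w, ‖β' w‖ ≤ 1 := by
    intro w
    rw [norm_mul]
    exact mul_le_one₀ (hβ _) (norm_nonneg _) (RES_norm_le p χ _)
  refine ⟨B₁.image st, β', hβ', ?_, ?_, ?_⟩
  · exact Finset.card_image_le.trans (Finset.card_filter_le _ _)
  · rw [Finset.card_image_of_injOn hinj]; omega
  -- the main estimate
  choose! X Y hX1 hX2 hY1 hY2 hne hz using hA
  let F : ℕ × ℕ → ℝ := fun v => ‖∑ u ∈ B₁.image st, β' u * χ ((v.1 : ZMod p) + (v.2 : ZMod p) * u)‖
  have hterm : ∀ z ∈ A, ‖∑ w ∈ B, β w * χ (z + w)‖ ≤ 1 + F (X z, Y z) := by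
    intro z hzA
    have hkey : ∀ w ∈ B₁, β w * χ (z + w) * χ (c * X z + d * Y z) =
        β' (st w) * χ ((X z : ZMod p) + (Y z : ZMod p) * st w) := by
      intro w hw
      have hw' : a + c * w ≠ 0 := (Finset.mem_filter.1 hw).2
      have h1 : (z + w) * (c * X z + d * Y z) = (a + c * w) * ((X z : ZMod p) + (Y z : ZMod p) * st w) := by
        have e1 : z * (c * X z + d * Y z) = a * X z + b * Y z := by
          have := hz z hzA
          rw [eq_div_iff (hne z hzA)] at this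
          exact this
        have e2 : st w * (a + c * w) = b + d * w := div_mul_cancel₀ _ hw'
        linear_combination e1 - (Y z : ZMod p) * e2
      show β w * χ (z + w) * χ (c * X z + d * Y z) =
        (β (inv (st w)) * χ (a + c * inv (st w))) * χ ((X z : ZMod p) + (Y z : ZMod p) * st w)
      rw [hinv w hw, mul_assoc, ← map_mul, h1, map_mul, mul_assoc]
    have hsum : ∑ w ∈ B, β w * χ (z + w) = ∑ w ∈ B₁, β w * χ (z + w) + ∑ w ∈ B₂, β w * χ (z + w) :=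
      (Finset.sum_filter_add_sum_filter_not _ _ _).symm
    have h1 : ‖∑ w ∈ B₁, β w * χ (z + w)‖ = F (X z, Y z) := by
      have e1 : ‖∑ w ∈ B₁, β w * χ (z + w)‖ = ‖(∑ w ∈ B₁, β w * χ (z + w)) * χ (c * X z + d * Y z)‖ := by
        rw [norm_mul, RES_norm p χ _ (hne z hzA), mul_one]
      rw [e1, Finset.sum_mul]
      show _ = ‖∑ u ∈ B₁.image st, β' u * χ ((X z : ZMod p) + (Y z : ZMod p) * u)‖
      rw [Finset.sum_image hinj]
      congr 1
      exact Finset.sum_congr rfl hkey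
    have h2 : ‖∑ w ∈ B₂, β w * χ (z + w)‖ ≤ 1 := by
      refine (norm_sum_le _ _).trans ?_
      refine (Finset.sum_le_card_nsmul B₂ _ 1 fun w _ => ?_).trans ?_
      · rw [norm_mul]
        exact mul_le_one₀ (hβ _) (norm_nonneg _) (RES_norm_le p χ _)
      · rw [nsmul_eq_mul, mul_one]
        exact_mod_cast hB₂card
    rw [hsum]
    refine (norm_add_le _ _).trans ?_
    rw [h1]
    linarith
  have hXY : Set.InjOn (fun z => (X z, Y z)) (A : Set (ZMod p)) := by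
    intro z hz1 z' hz2 h
    have h1 : X z = X z' := congrArg Prod.fst h
    have h2 : Y z = Y z' := congrArg Prod.snd h
    rw [hz z hz1, hz z' hz2, h1, h2]
  have hsub : A.image (fun z => (X z, Y z)) ⊆ Finset.Icc 1 Q ×ˢ Finset.Icc 1 Q := by
    intro v hv
    obtain ⟨z, hz', rfl⟩ := Finset.mem_image.1 hv
    rw [Finset.mem_product, Finset.mem_Icc, Finset.mem_Icc]
    exact ⟨⟨hX1 z hz', hX2 z hz'⟩, ⟨hY1 z hz', hY2 z hz'⟩⟩
  have hcard : (A.card : ℝ) ≤ (Q : ℝ) ^ 2 := by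
    have h1 : A.card ≤ Q * Q := by
      rw [← Finset.card_image_of_injOn hXY]
      refine (Finset.card_le_card hsub).trans ?_
      rw [Finset.card_product, Nat.card_Icc, Nat.add_sub_cancel]
    have h2 : (A.card : ℝ) ≤ ((Q * Q : ℕ) : ℝ) := by exact_mod_cast h1
    rw [Nat.cast_mul] at h2
    rw [sq]; exact h2
  calc ∑ z ∈ A, ‖∑ w ∈ B, β w * χ (z + w)‖ ≤ ∑ z ∈ A, (1 + F (X z, Y z)) := Finset.sum_le_sum hterm
    _ = A.card + ∑ z ∈ A, F (X z, Y z) := by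
      rw [Finset.sum_add_distrib, Finset.sum_const, nsmul_eq_mul, mul_one]
    _ = A.card + ∑ v ∈ A.image (fun z => (X z, Y z)), F v := by rw [Finset.sum_image hXY]
    _ ≤ (Q : ℝ) ^ 2 + S1 p χ (B₁.image st) β' Q := by
      refine add_le_add hcard ?_
      exact Finset.sum_le_sum_of_subset_of_nonneg hsub fun v _ _ => norm_nonneg _

theorem RES (hFIN : FIN_stmt) : RES_stmt := by
  intro ε hε
  obtain ⟨p₁, δ₁, hδ₁, hF⟩ := hFIN (ε / 2) (by positivity)
  set m := min δ₁ ε with hm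
  have hmpos : 0 < m := lt_min hδ₁ hε
  refine ⟨max p₁ (max ⌈(2 : ℝ) ^ (2 / ε)⌉₊ ⌈(2 : ℝ) ^ (2 / m)⌉₊), m / 2, by positivity, ?_⟩
  intro p hpf hp χ hχ A B β hβ Q hQ1 hQ4 h12 h34 a b c d hdet hA
  have hp1 : p₁ < p := lt_of_le_of_lt (le_max_left _ _) hp
  have hp2 : ⌈(2 : ℝ) ^ (2 / ε)⌉₊ < p := lt_of_le_of_lt ((le_max_left _ _).trans (le_max_right _ _)) hp
  have hp3 : ⌈(2 : ℝ) ^ (2 / m)⌉₊ < p := lt_of_le_of_lt ((le_max_right _ _).trans (le_max_right _ _)) hp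
  have hppos : (0 : ℝ) < p := by exact_mod_cast (Fact.out : p.Prime).pos
  have hpone : (1 : ℝ) ≤ p := by exact_mod_cast (Fact.out : p.Prime).one_le
  have hgen : ∀ t : ℝ, 0 < t → ⌈(2 : ℝ) ^ (2 / t)⌉₊ < p → (2 : ℝ) ≤ (p : ℝ) ^ (t / 2) := by
    intro t ht h
    have h1 : (2 : ℝ) ^ (2 / t) ≤ p := (Nat.le_ceil _).trans (by exact_mod_cast h.le)
    have h2 := Real.rpow_le_rpow (by positivity) h1 (by positivity : (0 : ℝ) ≤ t / 2)
    rw [← Real.rpow_mul (by norm_num)] at h2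
    have h3 : 2 / t * (t / 2) = 1 := by field_simp
    rw [h3, Real.rpow_one] at h2
    exact h2
  have hε2 := hgen ε hε hp2
  have hm2 := hgen m hmpos hp3
  obtain ⟨B', β', hβ', hc1, hc2, hmain⟩ := RES_core p χ A B β hβ Q a b c d hdet hA
  have hQ0 : (0 : ℝ) ≤ (Q : ℝ) ^ 2 := by positivity
  have hQsq : (Q : ℝ) ^ 2 ≤ (p : ℝ) ^ (1 / 2 : ℝ) := by
    have h1 : ((Q : ℝ) ^ 2) ^ 2 ≤ p := by
      have : ((Q ^ 4 : ℕ) : ℝ) ≤ p := by exact_mod_cast hQ4
      push_cast at this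
      have h4 : ((Q : ℝ) ^ 2) ^ 2 = (Q : ℝ) ^ 4 := by ring
      rw [h4]
      exact this
    have h2 : (Q : ℝ) ^ 2 ≤ Real.sqrt p := Real.le_sqrt_of_sq_le h1
    rwa [Real.sqrt_eq_rpow] at h2
  have hBge : (p : ℝ) ^ ε ≤ B.card := by
    have h1 : (p : ℝ) ^ (1 / 2 + ε) ≤ (p : ℝ) ^ (1 / 2 : ℝ) * B.card :=
      h12.trans (mul_le_mul_of_nonneg_right hQsq (Nat.cast_nonneg _))
    rw [Real.rpow_add hppos] at h1
    exact le_of_mul_le_mul_left h1 (by positivity)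
  have hmono : (p : ℝ) ^ (ε / 2) ≤ (p : ℝ) ^ ε := Real.rpow_le_rpow_of_exponent_le hpone (by linarith)
  have hB2 : (2 : ℝ) ≤ B.card := hε2.trans (hmono.trans hBge)
  have hB'r : (B.card : ℝ) ≤ 2 * B'.card := by
    have h1 : (2 : ℕ) ≤ B.card := by exact_mod_cast hB2
    have h2 : B.card ≤ 2 * B'.card := by omega
    exact_mod_cast h2
  have hB'le : (B'.card : ℝ) ≤ B.card := by exact_mod_cast hc1
  have hexp : ∀ s : ℝ, (p : ℝ) ^ (s + ε / 2) * 2 ≤ (p : ℝ) ^ (s + ε) := by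
    intro s
    have : (p : ℝ) ^ (s + ε) = (p : ℝ) ^ (s + ε / 2) * (p : ℝ) ^ (ε / 2) := by
      rw [← Real.rpow_add hppos]
      congr 1
      ring
    rw [this]
    exact mul_le_mul_of_nonneg_left hε2 (by positivity)
  have hfin := hF p hp1 χ hχ B' β' hβ' Q (hmono.trans hQ1) hQ4
    (by
      have h1 := hexp (1 / 2)
      have h2 : (Q : ℝ) ^ 2 * B.card ≤ (Q : ℝ) ^ 2 * (2 * B'.card) := mul_le_mul_of_nonneg_left hB'r hQ0
      nlinarith [h1, h2, h12])
    (by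
      have h1 := hexp (3 / 4)
      have h2 : (Q : ℝ) ^ 4 * B.card ≤ (Q : ℝ) ^ 4 * (2 * B'.card) := mul_le_mul_of_nonneg_left hB'r (by positivity)
      nlinarith [h1, h2, h34])
  have hδ : (p : ℝ) ^ (-δ₁) ≤ (p : ℝ) ^ (-m) := Real.rpow_le_rpow_of_exponent_le hpone (by linarith [min_le_left δ₁ ε])
  have hεm : (p : ℝ) ^ (-ε) ≤ (p : ℝ) ^ (-m) := Real.rpow_le_rpow_of_exponent_le hpone (by linarith [min_le_right δ₁ ε])
  have hone : (Q : ℝ) ^ 2 ≤ (p : ℝ) ^ (-m) * (Q : ℝ) ^ 2 * B.card := by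
    have h1 : (1 : ℝ) ≤ (p : ℝ) ^ (-m) * B.card := by
      have h2 : (p : ℝ) ^ (-ε) * (p : ℝ) ^ ε = 1 := by
        rw [← Real.rpow_add hppos, neg_add_cancel, Real.rpow_zero]
      calc (1 : ℝ) = (p : ℝ) ^ (-ε) * (p : ℝ) ^ ε := h2.symm
        _ ≤ (p : ℝ) ^ (-m) * B.card := mul_le_mul hεm hBge (by positivity) (by positivity)
    calc (Q : ℝ) ^ 2 = (Q : ℝ) ^ 2 * 1 := (mul_one _).symm
      _ ≤ (Q : ℝ) ^ 2 * ((p : ℝ) ^ (-m) * B.card) := mul_le_mul_of_nonneg_left h1 hQ0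
      _ = (p : ℝ) ^ (-m) * (Q : ℝ) ^ 2 * B.card := by ring
  have htwo : (p : ℝ) ^ (-δ₁) * (Q : ℝ) ^ 2 * B'.card ≤ (p : ℝ) ^ (-m) * (Q : ℝ) ^ 2 * B.card :=
    mul_le_mul (mul_le_mul_of_nonneg_right hδ hQ0) hB'le (Nat.cast_nonneg _) (by positivity)
  have hfact : 2 * ((p : ℝ) ^ (-m) * (Q : ℝ) ^ 2 * B.card) ≤ (p : ℝ) ^ (-(m / 2)) * (Q : ℝ) ^ 2 * B.card := by
    have h1 : (p : ℝ) ^ (-(m / 2)) = (p : ℝ) ^ (-m) * (p : ℝ) ^ (m / 2) := by
      rw [← Real.rpow_add hppos]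
      congr 1
      ring
    rw [h1]
    have h2 : (0 : ℝ) ≤ (p : ℝ) ^ (-m) * (Q : ℝ) ^ 2 * B.card := by positivity
    nlinarith [mul_le_mul_of_nonneg_left hm2 h2]
  linarith [hmain, hfin, hone, htwo, hfact]

end Pool.Agent.helper68.FY
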